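import Pool.Agent.Lib.MP_b8145f_gt.Final

set_option autoImplicit false

open Set Filter Topology MeasureTheory

namespace Pool.Agent.Results.MP_b8145f_gt.PolQuestion

/-- First Baire class on the Baire space: pointwise limits of sequences of continuous functions. -/
def IsBaireOne (f : (ℕ → ℕ) → ℝ) : Prop :=
  ∃ g : ℕ → (ℕ → ℕ) → ℝ, (∀ n, Continuous (g n)) ∧
    ∀ x, Tendsto (fun n => g n x) atTop (𝓝 (f x))

/-- The measure `μ` has metrizable-like support. -/
def HasMetrizableLikeSupport {S : Type} [TopologicalSpace S] [MeasurableSpace S]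
    (μ : Measure S) : Prop :=
  ∃ 𝒜 : ℕ → Set (Set S),
    (∀ i, (𝒜 i).Finite ∧ (∀ A ∈ 𝒜 i, IsCompact A) ∧ (𝒜 i).PairwiseDisjoint id) ∧
    ∀ 𝒰 : Set (Set S), (∀ U ∈ 𝒰, IsOpen U) → ⋃₀ 𝒰 = univ → ∀ ε : ℝ, 0 < ε →
      ∃ i, (∀ A ∈ 𝒜 i, ∃ U ∈ 𝒰, A ⊆ U) ∧ μ (⋃₀ 𝒜 i)ᶜ < ENNReal.ofReal ε

/-- The class of compact Hausdorff spaces on which every regular Borel probability measure has
metrizable-like support. -/
def InClassS (S : Type) [TopologicalSpace S] : Prop :=
  CompactSpace S ∧ T2Space S ∧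
    ∀ [MeasurableSpace S] [BorelSpace S] (μ : Measure S),
      IsProbabilityMeasure μ → μ.Regular → HasMetrizableLikeSupport μ

/-- Every compact subspace of the first Baire class on the Baire space, with the topology of
pointwise convergence, belongs to the class. -/
theorem result :
    ∀ K : Set ((ℕ → ℕ) → ℝ), IsCompact K → (∀ f ∈ K, IsBaireOne f) → InClassS K := by
  intro K hK hB
  have hc : CompactSpace K := isCompact_iff_compactSpace.1 hK
  refine ⟨hc, inferInstance, ?_⟩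
  intro _ _ μ hμ hreg
  letI := TopologicalSpace.upgradeIsCompletelyMetrizable (ℕ → ℕ)
  have hF : ∀ k : K, Pool.Agent.Lib.MP_b8145f_gt.Frag (fun x : ℕ → ℕ => k.1 x) := by
    intro k
    obtain ⟨g, hg, hlim⟩ := hB k.1 k.2
    exact Pool.Agent.Lib.MP_b8145f_gt.frag_of_limit g hg hlim
  obtain ⟨𝓕, h1, h2, h3, h4, h5⟩ :=
    Pool.Agent.Lib.MP_b8145f_gt.countably_determined μ (fun (x : ℕ → ℕ) (k : K) => k.1 x)
      IsInducing.subtypeVal hF
  exact Pool.Agent.Lib.MP_b8145f_gt.mls_of_cd μ h1 h2 h3 h4 h5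

end Pool.Agent.Results.MP_b8145f_gt.PolQuestion
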