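import Pool.Agent.Lib.MP_b8145f_gt.Tame

set_option autoImplicit false

open Set Filter Topology MeasureTheory

namespace Pool.Agent.Results.MP_b8145f_gt.TameFamilies

/-- The sequence of functions `g` is independent at the levels `a`, `b`. -/
def Independent {K : Type} [TopologicalSpace K] (g : ℕ → C(K, ℝ)) (a b : ℝ) : Prop :=
  ∀ P M : Finset ℕ, Disjoint P M → ∃ k : K, (∀ n ∈ P, g n k < a) ∧ ∀ n ∈ M, b < g n k

/-- The measure `μ` has metrizable-like support. -/
def HasMetrizableLikeSupport {S : Type} [TopologicalSpace S] [MeasurableSpace S]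
    (μ : Measure S) : Prop :=
  ∃ 𝒜 : ℕ → Set (Set S),
    (∀ i, (𝒜 i).Finite ∧ (∀ A ∈ 𝒜 i, IsCompact A) ∧ (𝒜 i).PairwiseDisjoint id) ∧
    ∀ 𝒰 : Set (Set S), (∀ U ∈ 𝒰, IsOpen U) → ⋃₀ 𝒰 = univ → ∀ ε : ℝ, 0 < ε →
      ∃ i, (∀ A ∈ 𝒜 i, ∃ U ∈ 𝒰, A ⊆ U) ∧ μ (⋃₀ 𝒜 i)ᶜ < ENNReal.ofReal ε

/-- The class of compact Hausdorff spaces on which every regular Borel probability measure has
metrizable-like support. -/
def InClassS (S : Type) [TopologicalSpace S] : Prop :=
  CompactSpace S ∧ T2Space S ∧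
    ∀ [MeasurableSpace S] [BorelSpace S] (μ : Measure S),
      IsProbabilityMeasure μ → μ.Regular → HasMetrizableLikeSupport μ

/-- A compact space belongs to the class if a separating family of continuous functions can be
labelled by points of a second countable space so that no independent sequence has convergent
labels. -/
theorem result (K : Type) [TopologicalSpace K] [CompactSpace K] [T2Space K] (Γ : Set C(K, ℝ))
    (hsep : ∀ k k' : K, (∀ f ∈ Γ, f k = f k') → k = k')
    (Y : Type) [TopologicalSpace Y] [SecondCountableTopology Y]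
    (h : ∀ a b : ℝ, a < b → ∃ π : C(K, ℝ) → Y, ∀ (g : ℕ → C(K, ℝ)) (y : Y), (∀ n, g n ∈ Γ) →
      Tendsto (fun n => π (g n)) atTop (𝓝 y) → ¬ Independent g a b) :
    InClassS K := by
  refine ⟨inferInstance, inferInstance, fun μ _ _ => ?_⟩
  refine Pool.Agent.Lib.MP_b8145f_gt.Tame.main (S := Y) μ (fun (f : Γ) k => f.1 k)
    (fun f => f.1.continuous) (fun k k' hk => hsep k k' fun f hf => hk ⟨f, hf⟩) fun a b hab => ?_
  obtain ⟨π, hπ⟩ := h a b hab
  exact ⟨fun f => π f.1, fun g y hy => hπ (fun n => (g n).1) y (fun n => (g n).2) hy⟩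

end Pool.Agent.Results.MP_b8145f_gt.TameFamilies
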